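import Mathlib

namespace Pool.Agent.Results.MP_c13936_co.HeawoodCounterexample

open SimpleGraph

/-- The edges of `G` with exactly one end in `X`. -/
def cut {V : Type} (G : SimpleGraph V) (X : Set V) : Set (Sym2 V) :=
  {e | e ∈ G.edgeSet ∧ ∃ a ∈ X, ∃ b ∉ X, e = s(a, b)}

/-- A bond of `G`: a minimal nonempty edge cut. -/
def IsBond {V : Type} (G : SimpleGraph V) (B : Set (Sym2 V)) : Prop :=
  Minimal (fun C : Set (Sym2 V) => C.Nonempty ∧ ∃ X : Set V, C = cut G X) B

/-- Cyclic `k`-edge-connectivity: `G` is connected, has two vertex-disjoint circuits, and no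
bond `B` with fewer than `k` edges is such that every component of `G - B` contains a circuit. -/
def CyclicallyEdgeConnected {V : Type} (G : SimpleGraph V) (k : ℕ) : Prop :=
  G.Connected ∧
  (∃ (u v : V) (p : G.Walk u u) (q : G.Walk v v),
    p.IsCycle ∧ q.IsCycle ∧ p.support.Disjoint q.support) ∧
  ∀ B : Set (Sym2 V), IsBond G B → B.ncard < k →
    ¬ ∀ c : (G.deleteEdges B).ConnectedComponent,
      ∃ (v : V) (p : (G.deleteEdges B).Walk v v), p.IsCycle ∧
        ∀ w ∈ p.support, (G.deleteEdges B).connectedComponentMk w = c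

/-- The edge set `S` induces a path system: the graph formed by the edges in `S` has no circuit
and no vertex is incident with three or more edges of `S`. -/
def InducesPathSystem {V : Type} (S : Set (Sym2 V)) : Prop :=
  (fromEdgeSet S).IsAcyclic ∧ ∀ v : V, {e ∈ S | v ∈ e}.ncard ≤ 2

/-- The Heawood graph on `Fin 14`, in LCF notation `[5,-5]^7`. -/
def heawoodAdj (i j : Fin 14) : Prop :=
  j = i + 1 ∨ i = j + 1 ∨ (i.val % 2 = 0 ∧ j = i + 5) ∨ (j.val % 2 = 0 ∧ i = j + 5)

instance : DecidableRel heawoodAdj := fun i j => by unfold heawoodAdj; infer_instance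

def heawood : SimpleGraph (Fin 14) where
  Adj := heawoodAdj
  symm := ⟨by
    intro i j h
    unfold heawoodAdj at *
    tauto⟩
  loopless := ⟨by
    intro i h
    revert i
    decide⟩

instance : DecidableRel heawood.Adj := fun i j => by
  change Decidable (heawoodAdj i j); infer_instance

theorem heawood_regular : heawood.IsRegularOfDegree 3 := by
  intro v
  revert v
  decide

theorem adj_succ (i : Fin 14) : heawood.Adj i (i + 1) := Or.inl rfl

theorem heawood_connected : heawood.Connected := by
  have h0 : ∀ n : ℕ, ∀ h : n < 14, heawood.Reachable 0 ⟨n, h⟩ := by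
    intro n
    induction n with
    | zero => intro h; exact Reachable.refl _
    | succ n ih =>
      intro h
      refine (ih (by omega)).trans ?_
      have h1 := adj_succ ⟨n, by omega⟩
      have h2 : (⟨n, by omega⟩ : Fin 14) + 1 = ⟨n + 1, h⟩ := by
        apply Fin.ext
        rw [Fin.val_add]
        simp only [Fin.val_one]
        exact Nat.mod_eq_of_lt h
      rw [h2] at h1
      exact h1.reachable
  have : Nonempty (Fin 14) := ⟨0⟩
  refine Connected.mk ?_
  intro a b
  exact (h0 a.val a.isLt).symm.trans (h0 b.val b.isLt)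

def cycA : heawood.Walk 0 0 :=
  .cons (show heawood.Adj 0 1 by decide) (.cons (show heawood.Adj 1 2 by decide)
  (.cons (show heawood.Adj 2 3 by decide) (.cons (show heawood.Adj 3 4 by decide)
  (.cons (show heawood.Adj 4 5 by decide) (.cons (show heawood.Adj 5 0 by decide) .nil)))))

def cycB : heawood.Walk 6 6 :=
  .cons (show heawood.Adj 6 7 by decide) (.cons (show heawood.Adj 7 8 by decide)
  (.cons (show heawood.Adj 8 9 by decide) (.cons (show heawood.Adj 9 10 by decide)
  (.cons (show heawood.Adj 10 11 by decide) (.cons (show heawood.Adj 11 6 by decide) .nil)))))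

theorem cycA_isCycle : cycA.IsCycle := by
  rw [Walk.isCycle_def, Walk.isTrail_def]
  refine ⟨by decide, by simp [cycA], by decide⟩

theorem cycB_isCycle : cycB.IsCycle := by
  rw [Walk.isCycle_def, Walk.isTrail_def]
  refine ⟨by decide, by simp [cycB], by decide⟩

theorem cyc_disjoint : cycA.support.Disjoint cycB.support := by
  intro x hx hy
  revert hx hy
  revert x
  decide

/-- The 21 edges as ordered pairs. -/
def edgeList : List (Fin 14 × Fin 14) :=
  [(0,1),(1,2),(2,3),(3,4),(4,5),(5,6),(6,7),(7,8),(8,9),(9,10),(10,11),(11,12),(12,13),(13,0),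
   (0,5),(2,7),(4,9),(6,11),(8,13),(10,1),(12,3)]

theorem adj_iff_mem (a b : Fin 14) :
    heawood.Adj a b ↔ (a, b) ∈ edgeList ∨ (b, a) ∈ edgeList := by
  revert a b
  decide

/-- The number of edges with both ends in the set coded by `b`. -/
def inside (b : Fin 14 → Bool) : ℕ := edgeList.countP (fun e => b e.1 && b e.2)
/-- The number of edges with exactly one end in the set coded by `b`. -/
def across (b : Fin 14 → Bool) : ℕ := edgeList.countP (fun e => b e.1 != b e.2)
/-- The size of the set coded by `b`. -/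
def size (b : Fin 14 → Bool) : ℕ := (List.finRange 14).countP b

def maskList : List ℕ :=
  [3, 6, 12, 24, 48, 96, 192, 384, 768, 1536, 3072, 6144, 12288, 8193, 33, 132, 528, 2112, 8448,
    1026, 4104]
def bitList : List ℕ := [1, 2, 4, 8, 16, 32, 64, 128, 256, 512, 1024, 2048, 4096, 8192]

theorem maskList_eq : maskList = edgeList.map (fun e => 2 ^ e.1.val ||| 2 ^ e.2.val) := by decide
theorem bitList_eq : bitList = (List.finRange 14).map (fun e => 2 ^ e.val) := by decide

def cnt (x : ℕ) (l : List ℕ) : ℕ :=
  List.rec 0 (fun m _ ih => Nat.add ih (bif Nat.beq (Nat.land x m) m then 1 else 0)) l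

theorem cnt_eq (x : ℕ) (l : List ℕ) : cnt x l = l.countP (fun m => Nat.land x m == m) := by
  induction l with
  | nil => rfl
  | cons m l ih =>
    rw [List.countP_cons, ← ih]
    change Nat.add (cnt x l) (bif Nat.beq (Nat.land x m) m then 1 else 0) = _
    rcases h : Nat.beq (Nat.land x m) m with _ | _
    · have : ¬ (Nat.land x m == m) = true := by
        intro h'
        rw [beq_iff_eq] at h'
        rw [h', Nat.beq_refl] at h
        exact Bool.noConfusion h
      simp only [this]
      rfl
    · have : (Nat.land x m == m) = true := by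
        rw [beq_iff_eq]
        exact Nat.eq_of_beq_eq_true h
      simp only [this]
      rfl

def chkM (x : ℕ) : Bool :=
  (Nat.beq (cnt x bitList) 0 || Nat.ble 6 (cnt x bitList) ||
      Nat.blt (cnt x maskList) (cnt x bitList)) &&
    (Nat.blt (cnt x bitList) 6 || Nat.blt 8 (cnt x bitList) ||
      Nat.ble (Nat.add (2 * cnt x maskList) 6) (3 * cnt x bitList))

def chkN (x : ℕ) : Bool := Nat.rec (chkM 0) (fun y _ => chkM (Nat.succ y)) x

def allBits : ℕ → ℕ → Bool
  | 0, x => chkN x
  | n + 1, x => allBits n (2 * x) && allBits n (2 * x + 1)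

theorem allBits_spec : ∀ (n y : ℕ), allBits n y = true → ∀ x, x / 2 ^ n = y → chkN x = true
  | 0, y, h, x, hx => by
    have : x = y := by simpa using hx
    subst this
    exact h
  | n + 1, y, h, x, hx => by
    rw [allBits, Bool.and_eq_true] at h
    have h3 : x / 2 ^ n / 2 = y := by
      rw [Nat.div_div_eq_div_mul, ← pow_succ]; exact hx
    rcases Nat.even_or_odd' (x / 2 ^ n) with ⟨z, hz | hz⟩
    · exact allBits_spec n _ h.1 x (by omega)
    · exact allBits_spec n _ h.2 x (by omega)

theorem chk_all : allBits 14 0 = true := by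
  decide +kernel

theorem chkM_true (x : ℕ) (hx : x < 2 ^ 14) : chkM x = true := by
  have h := allBits_spec 14 0 chk_all x (Nat.div_eq_of_lt hx)
  cases x with
  | zero => exact h
  | succ y => exact h

theorem land_one (x i : ℕ) : (Nat.land x (2 ^ i) == 2 ^ i) = x.testBit i := by
  have h : Nat.land x (2 ^ i) = x &&& 2 ^ i := rfl
  rw [h, Nat.and_two_pow]
  have h2 : 0 < 2 ^ i := by positivity
  rcases x.testBit i with _ | _
  · simp only [Bool.toNat_false, Nat.zero_mul, beq_eq_false_iff_ne]
    omega
  · simp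

theorem land_two (x i j : ℕ) :
    (Nat.land x (2 ^ i ||| 2 ^ j) == (2 ^ i ||| 2 ^ j)) = (x.testBit i && x.testBit j) := by
  have h : Nat.land x (2 ^ i ||| 2 ^ j) = x &&& (2 ^ i ||| 2 ^ j) := rfl
  rw [h, Bool.eq_iff_iff, beq_iff_eq, Bool.and_eq_true]
  constructor
  · intro h
    constructor
    · have := congrArg (fun z => Nat.testBit z i) h
      simp only [Nat.testBit_and, Nat.testBit_or, Nat.testBit_two_pow_self, Bool.true_or,
        Bool.and_true] at this
      exact this
    · have := congrArg (fun z => Nat.testBit z j) h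
      simp only [Nat.testBit_and, Nat.testBit_or, Nat.testBit_two_pow_self, Bool.or_true,
        Bool.and_true] at this
      exact this
  · rintro ⟨h1, h2⟩
    apply Nat.eq_of_testBit_eq
    intro t
    simp only [Nat.testBit_and, Nat.testBit_or, Nat.testBit_two_pow]
    by_cases hi : i = t
    · subst hi; simp [h1]
    · by_cases hj : j = t
      · subst hj; simp [h2]
      · simp [hi, hj]

theorem key (b : Fin 14 → Bool) :
    (size b ≠ 0 → 6 ≤ size b ∨ inside b < size b) ∧
    (6 ≤ size b → size b ≤ 8 → 2 * inside b + 6 ≤ 3 * size b) := by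
  have h := chkM_true (Nat.ofBits b) (Nat.ofBits_lt_two_pow b)
  have hbit : ∀ i : Fin 14, (Nat.ofBits b).testBit i.val = b i := by
    intro i
    rw [Nat.testBit_ofBits_lt _ _ i.isLt]
  have h1 : cnt (Nat.ofBits b) bitList = size b := by
    rw [cnt_eq, bitList_eq, List.countP_map]
    unfold size
    apply List.countP_congr
    intro i _
    simp only [Function.comp_apply, land_one, hbit]
  have h2 : cnt (Nat.ofBits b) maskList = inside b := by
    rw [cnt_eq, maskList_eq, List.countP_map]
    unfold inside
    apply List.countP_congr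
    intro i _
    simp only [Function.comp_apply, land_two, hbit]
  unfold chkM at h
  rw [h1, h2, Bool.and_eq_true, Bool.or_eq_true, Bool.or_eq_true, Bool.or_eq_true,
    Bool.or_eq_true] at h
  obtain ⟨h3, h4⟩ := h
  constructor
  · intro h0
    rcases h3 with (h3 | h3) | h3
    · exact absurd (Nat.eq_of_beq_eq_true h3) h0
    · left; exact Nat.le_of_ble_eq_true h3
    · right; exact Nat.le_of_ble_eq_true h3
  · intro h5 h6
    rcases h4 with (h4 | h4) | h4
    · have : size b < 6 := Nat.le_of_ble_eq_true h4
      omega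
    · have : 8 < size b := Nat.le_of_ble_eq_true h4
      omega
    · exact Nat.le_of_ble_eq_true h4

theorem across_add (b : Fin 14 → Bool) : across b + 2 * inside b = 3 * size b := by
  have e1 : ∀ x y : Bool, (bif (x != y) then 1 else 0) + 2 * (bif (x && y) then 1 else 0) =
      (bif x then 1 else 0) + (bif y then 1 else 0) := by decide
  have gen : ∀ l : List (Fin 14 × Fin 14),
      l.countP (fun e => b e.1 != b e.2) + 2 * l.countP (fun e => b e.1 && b e.2) =
        (l.map (fun e => (bif b e.1 then 1 else 0) + (bif b e.2 then 1 else 0))).sum := by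
    intro l
    induction l with
    | nil => rfl
    | cons a l ih =>
      rw [List.countP_cons, List.countP_cons, List.map_cons, List.sum_cons, ← ih, ← e1]
      simp only [Bool.cond_eq_ite]
      ring
  unfold across inside
  rw [gen]
  unfold size
  have h14 : List.finRange 14 = [0,1,2,3,4,5,6,7,8,9,10,11,12,13] := by decide
  rw [h14]
  simp only [edgeList, List.map_cons, List.map_nil, List.sum_cons, List.sum_nil, List.countP_cons,
    List.countP_nil, Bool.cond_eq_ite]
  ring

open Classical in
/-- The code of a set. -/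
noncomputable def code (X : Set (Fin 14)) : Fin 14 → Bool := fun i => decide (i ∈ X)

theorem code_iff (X : Set (Fin 14)) (i : Fin 14) : code X i = true ↔ i ∈ X := by
  classical
  unfold code
  simp

theorem size_eq (X : Set (Fin 14)) : size (code X) = X.ncard := by
  classical
  have h : X = ((((List.finRange 14).filter (code X)).toFinset : Finset (Fin 14)) : Set _) := by
    ext i
    simp [code_iff]
  have h2 : ((List.finRange 14).filter (code X)).Nodup := (List.nodup_finRange 14).filter _
  unfold size
  rw [List.countP_eq_length_filter, ← List.toFinset_card_of_nodup h2, ← Set.ncard_coe_finset, ← h]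

theorem edgeSym_nodup : (edgeList.map (fun e => s(e.1, e.2))).Nodup := by decide

theorem edge_mem (e : Sym2 (Fin 14)) (he : e ∈ heawood.edgeSet) :
    ∃ q ∈ edgeList, e = s(q.1, q.2) := by
  induction e using Sym2.ind with
  | _ a b =>
    rw [mem_edgeSet, adj_iff_mem] at he
    rcases he with h | h
    · exact ⟨(a, b), h, rfl⟩
    · exact ⟨(b, a), h, Sym2.eq_swap⟩

theorem across_le (X : Set (Fin 14)) : across (code X) ≤ (cut heawood X).ncard := by
  classical
  unfold across
  rw [List.countP_eq_length_filter]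
  set l := edgeList.filter (fun e => code X e.1 != code X e.2) with hl
  have hnd : (l.map (fun e => s(e.1, e.2))).Nodup :=
    edgeSym_nodup.sublist (List.Sublist.map _ List.filter_sublist)
  have hcard : (l.map (fun e => s(e.1, e.2))).toFinset.card = l.length := by
    rw [List.toFinset_card_of_nodup hnd, List.length_map]
  rw [← hcard, ← Set.ncard_coe_finset]
  apply Set.ncard_le_ncard _ (Set.toFinite _)
  intro e he
  simp only [List.coe_toFinset, List.mem_map, Set.mem_ofPred_eq] at he
  obtain ⟨q, hq, rfl⟩ := he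
  rw [hl, List.mem_filter] at hq
  obtain ⟨hq1, hq2⟩ := hq
  refine ⟨?_, ?_⟩
  · rw [mem_edgeSet, adj_iff_mem]
    left; exact hq1
  · have h1 := code_iff X q.1
    have h2 := code_iff X q.2
    rcases hx : code X q.1 with _ | _ <;> rcases hy : code X q.2 with _ | _ <;>
      rw [hx] at hq2 h1 <;> rw [hy] at hq2 h2
    · simp at hq2
    · exact ⟨q.2, h2.1 rfl, q.1, fun h => by simpa using h1.2 h, Sym2.eq_swap⟩
    · exact ⟨q.1, h1.1 rfl, q.2, fun h => by simpa using h2.2 h, rfl⟩
    · simp at hq2

/-- A set containing the vertices of a circuit has at least six elements. -/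
theorem six_le (X : Set (Fin 14)) (v : Fin 14) (p : heawood.Walk v v) (hp : p.IsCycle)
    (hX : ∀ w ∈ p.support, w ∈ X) : 6 ≤ X.ncard := by
  classical
  set Z : Set (Fin 14) := {w | w ∈ p.support} with hZ
  have hZX : Z.ncard ≤ X.ncard := Set.ncard_le_ncard hX (Set.toFinite _)
  have hlen : Z.ncard ≤ p.length := by
    have h1 : Z = (p.support.tail.toFinset : Set (Fin 14)) := by
      ext w
      simp only [hZ, Set.mem_ofPred_eq, List.coe_toFinset]
      rw [Walk.mem_support_iff]
      constructor
      · rintro (rfl | h)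
        · exact Walk.end_mem_tail_support hp.not_nil
        · exact h
      · intro h; right; exact h
    rw [h1, Set.ncard_coe_finset]
    refine (List.toFinset_card_le _).trans ?_
    simp
  have hin : p.length ≤ inside (code Z) := by
    unfold inside
    rw [List.countP_eq_length_filter]
    set l := edgeList.filter (fun e => code Z e.1 && code Z e.2) with hl
    have h1 : p.edges.toFinset.card = p.length := by
      rw [List.toFinset_card_of_nodup hp.edges_nodup, Walk.length_edges]
    rw [← h1]
    have h2 : p.edges.toFinset ⊆ (l.map (fun e => s(e.1, e.2))).toFinset := by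
      intro e he
      rw [List.mem_toFinset] at he ⊢
      obtain ⟨q, hq, rfl⟩ := edge_mem e (p.edges_subset_edgeSet he)
      rw [List.mem_map]
      refine ⟨q, ?_, rfl⟩
      rw [hl, List.mem_filter, Bool.and_eq_true, code_iff, code_iff]
      exact ⟨hq, p.fst_mem_support_of_mem_edges he, p.snd_mem_support_of_mem_edges he⟩
    refine (Finset.card_le_card h2).trans ((List.toFinset_card_le _).trans ?_)
    rw [List.length_map]
  have hpos : Z.ncard ≠ 0 := by
    rw [Ne, Set.ncard_eq_zero (Set.toFinite _)]
    intro h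
    have : v ∈ Z := p.start_mem_support
    rw [h] at this
    exact this
  have hk := (key (code Z)).1
  rw [size_eq] at hk
  rcases hk hpos with h | h
  · omega
  · omega

theorem deleted_adj {V : Type} (G : SimpleGraph V) (X : Set V) (a b : V)
    (h : (G.deleteEdges (cut G X)).Adj a b) : a ∈ X ↔ b ∈ X := by
  rw [deleteEdges_adj] at h
  obtain ⟨h1, h2⟩ := h
  constructor
  · intro ha
    by_contra hb
    exact h2 ⟨h1, a, ha, b, hb, rfl⟩
  · intro hb
    by_contra ha
    exact h2 ⟨h1, b, hb, a, ha, Sym2.eq_swap⟩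

theorem deleted_reachable {V : Type} (G : SimpleGraph V) (X : Set V) (a b : V)
    (h : (G.deleteEdges (cut G X)).Reachable a b) : a ∈ X ↔ b ∈ X := by
  obtain ⟨p⟩ := h
  induction p with
  | nil => exact Iff.rfl
  | cons h _ ih => exact (deleted_adj G X _ _ h).trans ih

theorem heawood_cyclic : CyclicallyEdgeConnected heawood 6 := by
  refine ⟨heawood_connected, ⟨0, 6, cycA, cycB, cycA_isCycle, cycB_isCycle, cyc_disjoint⟩, ?_⟩
  intro B hB hlt hcomp
  obtain ⟨hne, X, rfl⟩ := hB.prop
  obtain ⟨e, he, a, ha, b, hb, rfl⟩ := hne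
  have side : ∀ (Y : Set (Fin 14)) (c : Fin 14), c ∈ Y → (∀ x, x ∈ Y ↔ (c ∈ X ↔ x ∈ X)) →
      6 ≤ Y.ncard := by
    intro Y c _ hY
    obtain ⟨v, p, hp, hsupp⟩ := hcomp ((heawood.deleteEdges (cut heawood X)).connectedComponentMk c)
    have hle : heawood.deleteEdges (cut heawood X) ≤ heawood := deleteEdges_le _
    refine six_le Y v (p.mapLe hle) (hp.mapLe hle) ?_
    intro w hw
    rw [Walk.support_mapLe_eq_support] at hw
    have h1 := hsupp w hw
    rw [ConnectedComponent.eq] at h1
    rw [hY]
    exact (deleted_reachable heawood X w c h1).symm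
  have h1 : 6 ≤ X.ncard := side X a ha (fun x => by simp [ha])
  have h2 : 6 ≤ (Xᶜ).ncard := side Xᶜ b hb (fun x => by simp [hb])
  have h3 : X.ncard + (Xᶜ).ncard = 14 := by
    rw [Set.ncard_add_ncard_compl]
    simp
  have h4 := (key (code X)).2
  have h5 := across_add (code X)
  have h6 := across_le X
  rw [size_eq] at h4 h5
  have h7 := h4 h1 (by omega)
  omega

/-- The five edges leaving the three-vertex path `0 - 1 - 2`. -/
def fiveEdges : Finset (Sym2 (Fin 14)) := {s(0, 13), s(0, 5), s(1, 10), s(2, 3), s(2, 7)}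

theorem fiveEdges_sub : (fiveEdges : Set (Sym2 (Fin 14))) ⊆ heawood.edgeSet := by
  intro e he
  rw [Finset.mem_coe] at he
  revert he
  revert e
  decide

theorem cycle_two {V : Type} (G : SimpleGraph V) (v : V) (p : G.Walk v v) (hp : p.IsCycle)
    (a : V) (ha : a ∈ p.support) :
    ∃ x y : V, x ≠ y ∧ s(a, x) ∈ p.edges ∧ s(a, y) ∈ p.edges ∧
      ∀ z, s(a, z) ∈ p.edges → z = x ∨ z = y := by
  have h2 := hp.ncard_neighborSet_toSubgraph_eq_two ha
  rw [Set.ncard_eq_two] at h2
  obtain ⟨x, y, hxy, h⟩ := h2
  have hmem : ∀ z, s(a, z) ∈ p.edges ↔ z = x ∨ z = y := by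
    intro z
    rw [← Walk.adj_toSubgraph_iff_mem_edges, ← Subgraph.mem_neighborSet, h]
    simp
  exact ⟨x, y, hxy, (hmem x).2 (Or.inl rfl), (hmem y).2 (Or.inr rfl), fun z hz => (hmem z).1 hz⟩

theorem fiveEdges_leaf : ∀ a b : Fin 14, s(a, b) ∈ fiveEdges →
    (∀ x y : Fin 14, s(a, x) ∈ fiveEdges → s(a, y) ∈ fiveEdges → x = y) ∨
    (∀ x y : Fin 14, s(b, x) ∈ fiveEdges → s(b, y) ∈ fiveEdges → x = y) := by
  decide +kernel

theorem fiveEdges_acyclic : (fromEdgeSet (fiveEdges : Set (Sym2 (Fin 14)))).IsAcyclic := by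
  intro v p hp
  have hsub : ∀ e ∈ p.edges, e ∈ fiveEdges := by
    intro e he
    have := p.edges_subset_edgeSet he
    rw [edgeSet_fromEdgeSet] at this
    exact this.1
  obtain ⟨x, y, hxy, hx, hy, -⟩ := cycle_two _ v p hp v p.start_mem_support
  obtain ⟨x', y', hxy', hx', hy', -⟩ :=
    cycle_two _ v p hp x (p.snd_mem_support_of_mem_edges hx)
  rcases fiveEdges_leaf v x (hsub _ hx) with h | h
  · exact hxy (h x y (hsub _ hx) (hsub _ hy))
  · exact hxy' (h x' y' (hsub _ hx') (hsub _ hy'))

theorem fiveEdges_path : InducesPathSystem (fiveEdges : Set (Sym2 (Fin 14))) := by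
  refine ⟨fiveEdges_acyclic, ?_⟩
  intro v
  have h : {e | e ∈ (fiveEdges : Set (Sym2 (Fin 14))) ∧ v ∈ e} =
      ((fiveEdges.filter (fun e => v ∈ e) : Finset (Sym2 (Fin 14))) : Set _) := by
    ext e; simp
  rw [h, Set.ncard_coe_finset]
  clear h
  revert v
  decide

theorem one_adj : ∀ z : Fin 14, heawood.Adj 1 z → z = 0 ∨ z = 2 ∨ z = 10 := by decide

theorem no_circuit (v : Fin 14) (p : heawood.Walk v v) (hp : p.IsCycle)
    (hS : ∀ e ∈ (fiveEdges : Set (Sym2 (Fin 14))), e ∈ p.edges) : False := by
  have hmem : ∀ e ∈ fiveEdges, e ∈ p.edges := hS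
  have e1 : s(0, 13) ∈ p.edges := hmem _ (by decide)
  have e2 : s(0, 5) ∈ p.edges := hmem _ (by decide)
  have e3 : s(1, 10) ∈ p.edges := hmem _ (by decide)
  have e4 : s(2, 3) ∈ p.edges := hmem _ (by decide)
  have e5 : s(2, 7) ∈ p.edges := hmem _ (by decide)
  -- the vertices `0` and `2` are saturated, so the edges `0 - 1` and `1 - 2` are not used
  have n0 : s(0, 1) ∉ p.edges := by
    intro h
    obtain ⟨x, y, -, -, -, h0⟩ := cycle_two _ v p hp 0 (p.fst_mem_support_of_mem_edges e1)
    have h1 := h0 _ e1
    have h2 := h0 _ e2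
    have h3 := h0 _ h
    omega
  have n2 : s(2, 1) ∉ p.edges := by
    intro h
    obtain ⟨x, y, -, -, -, h0⟩ := cycle_two _ v p hp 2 (p.fst_mem_support_of_mem_edges e4)
    have h1 := h0 _ e4
    have h2 := h0 _ e5
    have h3 := h0 _ h
    omega
  have m1 : ∀ z, s(1, z) ∈ p.edges → z = 10 := by
    intro z hz
    rcases one_adj z (p.adj_of_mem_edges hz) with rfl | rfl | rfl
    · rw [Sym2.eq_swap] at hz; exact absurd hz n0
    · rw [Sym2.eq_swap] at hz; exact absurd hz n2
    · rfl
  obtain ⟨x, y, hxy, hx, hy, -⟩ := cycle_two _ v p hp 1 (p.fst_mem_support_of_mem_edges e3)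
  exact hxy ((m1 x hx).trans (m1 y hy).symm)

/-- The conjecture fails for `k = 6`. -/
theorem result : ¬ ∀ k : ℕ, 1 ≤ k → ∀ (V : Type) (_ : Finite V) (G : SimpleGraph V),
    (∀ v : V, (G.neighborSet v).ncard = 3) → CyclicallyEdgeConnected G k →
    ∀ S : Set (Sym2 V), S ⊆ G.edgeSet → S.ncard = k - 1 → InducesPathSystem S →
    ∃ (v : V) (p : G.Walk v v), p.IsCycle ∧ ∀ e ∈ S, e ∈ p.edges := by
  intro h
  obtain ⟨v, p, hp, hS⟩ := h 6 (by norm_num) (Fin 14) inferInstance heawood
    (fun v => by
      have h1 := heawood_regular v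
      rw [← card_neighborSet_eq_degree] at h1
      rw [← h1, Set.ncard_eq_toFinset_card', Set.toFinset_card])
    heawood_cyclic (fiveEdges : Set (Sym2 (Fin 14))) fiveEdges_sub
    (by rw [Set.ncard_coe_finset]; decide) fiveEdges_path
  exact no_circuit v p hp hS

end Pool.Agent.Results.MP_c13936_co.HeawoodCounterexample
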